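import Mathlib
import Pool.Agent.MP_708e57_al.Final

namespace Pool.Agent.Results.MP_708e57_al.FullPerazzo

open Pool.Agent.MP_708e57_al

universe u

/-- The Hilbert function of the full Perazzo algebra is the least one in its codimension. -/
theorem result (K : Type u) [Field K] (d m : ℕ) (hd : 2 ≤ d) (hm : 1 ≤ m)
    (hK : ((d - 1).factorial : K) ≠ 0) :
    IsLeast {h : ℕ → ℕ | IsGorSeq K d h ∧ h 1 = m + (m + d - 2).choose (d - 1)}
      fun i => if i = 0 ∨ i = d then 1
        else if i < d then (m + i - 1).choose i + (m + (d - i) - 1).choose (d - i) else 0 :=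
  fullPerazzo K d m hd hm hK

end Pool.Agent.Results.MP_708e57_al.FullPerazzo
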