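import Mathlib
import Pool.Agent.MP_708e57_al.Final

namespace Pool.Agent.Results.MP_708e57_al.SocleFive

open Pool.Agent.MP_708e57_al

universe u

/-- Classification of the Gorenstein sequences of socle degree five. -/
theorem result (K : Type u) [Field K] (hK : (6 : K) ≠ 0) (h : ℕ → ℕ) :
    IsGorSeq K 5 h ↔ h 0 = 1 ∧ h 3 = h 2 ∧ h 4 = h 1 ∧ h 5 = 1 ∧ (∀ i, 5 < i → h i = 0) ∧
      1 ≤ h 1 ∧ h 2 ≤ (h 1 + 1).choose 2 ∧
      (h 1 ≤ h 2 ∨ ∃ x y z : ℕ, y ≤ (x + 1).choose 2 ∧ z ≤ mac 2 y ∧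
        2 + 2 * x + 2 * y + z ≤ h 2 ∧ h 1 + y ≤ h 2 + mac 3 z) :=
  socleFive K hK h

end Pool.Agent.Results.MP_708e57_al.SocleFive
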