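import Mathlib
import Pool.Agent.MP_708e57_al.Final

namespace Pool.Agent.Results.MP_708e57_al.SocleFour

open Pool.Agent.MP_708e57_al

universe u

/-- Classification of the Gorenstein sequences of socle degree four. -/
theorem result (K : Type u) [Field K] (hK : (6 : K) ≠ 0) (h : ℕ → ℕ) :
    IsGorSeq K 4 h ↔ h 0 = 1 ∧ h 3 = h 1 ∧ h 4 = 1 ∧ (∀ i, 4 < i → h i = 0) ∧
      1 ≤ h 1 ∧ h 2 ≤ (h 1 + 1).choose 2 ∧
      ∃ n j : ℕ, j ≤ n ∧ h 2 / 2 = (n + 1).choose 2 + j ∧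
        h 1 ≤ h 2 + n.choose 3 + (j - 1).choose 2 :=
  socleFour K hK h

end Pool.Agent.Results.MP_708e57_al.SocleFour
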