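import Mathlib
import Pool.Agent.MP_708e57_al.cf.Suff
import Pool.Agent.MP_708e57_al.cf.Nec

namespace Pool.Agent.Results.MP_708e57_al.UpToConstant

open Pool.Agent.MP_708e57_al

universe u

/-- `h = (1, h_1, ..., h_{d-1}, 1, 0, ...)` is symmetric with positive entries and satisfies
`c * h_{i+1} ^ i ≤ h_i ^ (i+1)` for `1 ≤ i ≤ d - 2`. -/
def SymRoom (d c : ℕ) (h : ℕ → ℕ) : Prop :=
  h 0 = 1 ∧ (∀ i j, i + j = d → h i = h j) ∧ (∀ i, i ≤ d → 0 < h i) ∧ (∀ i, d < i → h i = 0) ∧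
    ∀ i, 1 ≤ i → i + 2 ≤ d → c * h (i + 1) ^ i ≤ h i ^ (i + 1)

/-- The Gorenstein sequences of socle degree `d`, over any field, up to a constant factor. -/
theorem result (d : ℕ) : ∃ C : ℕ, ∀ (K : Type u) [Field K],
    {h | IsGorSeq K d h} ∈ Set.Icc {h | SymRoom d C h} {h | SymRoom d 1 h} := by
  obtain ⟨C, hC⟩ := isGorSeq_of_room.{u} d
  refine ⟨C, fun K _ => ⟨fun h ⟨h0, h1, h2, h3, h4⟩ => hC K h h0 h1 h2 h3 h4, fun h hG => ?_⟩⟩
  have hG' : IsGorSeq K d h := hG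
  exact ⟨hG'.basic.1, hG'.basic.2.1, fun i hi => hG'.pos hi, hG'.basic.2.2,
    fun i hi _ => by rw [one_mul]; exact hG'.pow_le i hi⟩

end Pool.Agent.Results.MP_708e57_al.UpToConstant
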